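import Pool.Agent.Y528.KL.KDefs

/-!
# The small sets lemma in the Frege calculus (job KL-SS of helper528)

`t_ss`: for every family `Q` of formulas either `w` of them are true, or exactly the `Q y` with
`y ∈ N` are true for some `N` with fewer than `w` elements; Frege proofs of polynomial size.
-/

set_option autoImplicit false

namespace Pool.Agent.Y497.KLSS

open Pool.Agent.Y528.KL Pool.Agent.H555R2.PF Pool.Agent.H555R2.PF.Fm Pool.Agent.TH677.EF

/-! ### sizes -/

theorem psize_map_bound {α : Type*} (l : List α) (f : α → Fm) (b : ℕ)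
    (h : ∀ x ∈ l, (f x).size ≤ b) : psize (l.map f) ≤ l.length * b := by
  induction l with
  | nil => simp [psize]
  | cons a l ih =>
    have h1 := ih fun x hx => h x (by simp [hx])
    have h2 := h a (by simp)
    rw [List.map_cons, psize_cons, List.length_cons]
    nlinarith

theorem mem_subs {k n : ℕ} {S : Finset ℕ} : S ∈ subs k n ↔ S ⊆ Finset.range n ∧ S.card = k := by
  simp [subs, Finset.mem_powersetCard]

theorem mem_subsLt {k n : ℕ} {S : Finset ℕ} :
    S ∈ subsLt k n ↔ S ⊆ Finset.range n ∧ S.card < k := by
  simp [subsLt, Finset.mem_powerset]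

theorem choose_le (n w : ℕ) : n.choose w ≤ (n + 2) ^ w :=
  (Nat.choose_le_pow n w).trans (Nat.pow_le_pow_left (by omega) w)

theorem length_subs (w n : ℕ) : (subs w n).length ≤ (n + 2) ^ (2 * w) := by
  rw [subs, Finset.length_toList, Finset.card_powersetCard, Finset.card_range]
  exact (choose_le n w).trans (Nat.pow_le_pow_right (by omega) (by omega))

theorem length_subsLt (w n : ℕ) : (subsLt w n).length ≤ (n + 2) ^ (2 * w) := by
  rw [subsLt, Finset.length_toList]
  have h1 : ((Finset.range n).powerset.filter fun S => S.card < w) ⊆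
      (Finset.range w).biUnion fun j => (Finset.range n).powersetCard j := by
    intro S hS
    simp only [Finset.mem_filter, Finset.mem_powerset] at hS
    simp only [Finset.mem_biUnion, Finset.mem_range, Finset.mem_powersetCard]
    exact ⟨S.card, hS.2, hS.1, rfl⟩
  refine (Finset.card_le_card h1).trans (Finset.card_biUnion_le.trans ?_)
  have h2 : ∀ j ∈ Finset.range w, ((Finset.range n).powersetCard j).card ≤ (n + 2) ^ w := by
    intro j hj
    rw [Finset.card_powersetCard, Finset.card_range]
    exact (choose_le n j).trans
      (Nat.pow_le_pow_right (by omega) (by rw [Finset.mem_range] at hj; omega))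
  refine (Finset.sum_le_card_nsmul _ _ _ h2).trans ?_
  rw [Finset.card_range, smul_eq_mul, two_mul, pow_add]
  refine Nat.mul_le_mul_right _ ?_
  calc w ≤ 2 ^ w := Nat.lt_two_pow_self.le
    _ ≤ (n + 2) ^ w := Nat.pow_le_pow_left (by omega) w

/-- bound of the sizes of the formulas -/
def Bd (w n s : ℕ) : ℕ := 3 * ((n + 2) ^ (2 * w) * ((n + 2) ^ 2 * (s + 1)))

theorem allof_size {n s : ℕ} {Q : ℕ → Fm} (hQ : ∀ y < n, (Q y).size ≤ s) (N : Finset ℕ) :
    (allof n Q N).size ≤ (n + 2) ^ 2 * (s + 1) := by
  unfold allof
  rw [AND_size, List.length_map]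
  have h1 : ((List.range n).filter fun y => y ∈ N).length ≤ n := by
    refine (List.length_filter_le _ _).trans ?_
    rw [List.length_range]
  have h2 := psize_map_bound ((List.range n).filter fun y => y ∈ N) Q s (by
    intro x hx
    have := List.mem_of_mem_filter hx
    exact hQ x (List.mem_range.1 this))
  have h3 : ((List.range n).filter fun y => y ∈ N).length * s ≤ n * s := Nat.mul_le_mul_right _ h1
  have h4 : n * s + n + 3 ≤ (n + 2) ^ 2 * (s + 1) := by nlinarith [Nat.zero_le (n * n * s)]
  omega

theorem exactly_size {n s : ℕ} {Q : ℕ → Fm} (hQ : ∀ y < n, (Q y).size ≤ s) (N : Finset ℕ) :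
    (exactly n Q N).size ≤ (n + 2) ^ 2 * (s + 1) := by
  unfold exactly
  rw [AND_size, List.length_map, List.length_range]
  have h2 := psize_map_bound (List.range n) (fun y => if y ∈ N then Q y else neg (Q y)) (s + 1) (by
    intro x hx
    have h3 := hQ x (List.mem_range.1 hx)
    split_ifs
    · omega
    · simp only [Fm.size]; omega)
  rw [List.length_range] at h2
  nlinarith

theorem or_bound {α : Type*} {l : List α} {f : α → Fm} {P E : ℕ} (hP : 1 ≤ P) (hE : 4 ≤ E)
    (hl : l.length ≤ P) (h : ∀ x ∈ l, (f x).size ≤ E) : (OR (l.map f)).size ≤ 3 * (P * E) := by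
  rw [OR_size, List.length_map]
  have h1 := psize_map_bound l f E h
  have h2 : l.length * E ≤ P * E := Nat.mul_le_mul_right _ hl
  nlinarith

theorem four_le (n : ℕ) : 4 ≤ (n + 2) ^ 2 := by
  calc 4 = 2 ^ 2 := by norm_num
    _ ≤ (n + 2) ^ 2 := Nat.pow_le_pow_left (by omega) 2

theorem E_ge (n s : ℕ) : 4 ≤ (n + 2) ^ 2 * (s + 1) := by
  have := four_le n
  nlinarith

theorem P_ge (n w : ℕ) : 1 ≤ (n + 2) ^ (2 * w) := Nat.one_le_pow _ _ (by omega)

theorem X_size {n s : ℕ} {Q : ℕ → Fm} (hQ : ∀ y < n, (Q y).size ≤ s) (w : ℕ) :
    (OR ((subs w n).map fun N => allof n Q N)).size ≤ Bd w n s :=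
  or_bound (P_ge n w) (E_ge n s) (length_subs w n) fun N _ => allof_size hQ N

theorem Z_size {n s : ℕ} {Q : ℕ → Fm} (hQ : ∀ y < n, (Q y).size ≤ s) (w : ℕ) :
    (OR ((subsLt w n).map fun N => exactly n Q N)).size ≤ Bd w n s :=
  or_bound (P_ge n w) (E_ge n s) (length_subsLt w n) fun N _ => exactly_size hQ N

theorem E_le_Bd (w n s : ℕ) : (n + 2) ^ 2 * (s + 1) ≤ Bd w n s := by
  unfold Bd
  have h1 := P_ge n w
  nlinarith [E_ge n s]

theorem s_le_Bd (w n s : ℕ) : s + 4 ≤ Bd w n s := by
  refine le_trans ?_ (E_le_Bd w n s)
  have := four_le n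
  nlinarith

theorem Bd_mono (w n s : ℕ) : Bd w n s ≤ Bd (w + 1) n s := by
  unfold Bd
  have h1 : (n + 2) ^ (2 * w) ≤ (n + 2) ^ (2 * (w + 1)) :=
    Nat.pow_le_pow_right (by omega) (by omega)
  exact Nat.mul_le_mul_left _ (Nat.mul_le_mul_right _ h1)

/-! ### the proof -/

/-- `w` of the formulas are true -/
noncomputable abbrev XX (w n : ℕ) (Q : ℕ → Fm) : Fm := OR ((subs w n).map fun N => allof n Q N)

/-- exactly the formulas in some set with fewer than `w` elements are true -/
noncomputable abbrev ZZ (w n : ℕ) (Q : ℕ → Fm) : Fm :=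
  OR ((subsLt w n).map fun N => exactly n Q N)

theorem main {F : List Rule} {n M : ℕ} {Q : ℕ → Fm} {s : ℕ} (hG : Good F M)
    (hQ : ∀ y < n, (Q y).size ≤ s) : ∀ w : ℕ, 20 * Bd w n s ≤ M →
    Sq F M [] (or (OR ((subs w n).map fun N => allof n Q N))
      (OR ((subsLt w n).map fun N => exactly n Q N))) (200 * (w + 1)) := by
  intro w
  induction w with
  | zero =>
    intro hM
    have hX := X_size hQ 0
    have hZ := Z_size hQ 0
    have hB := s_le_Bd 0 n s
    have h0 : (∅ : Finset ℕ) ∈ subs 0 n := by rw [mem_subs]; simp
    have ha := allof_size hQ ∅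
    have hE := E_le_Bd 0 n s
    have e0 : (AND ([] : List Fm)).size = 3 := by simp [AND, Fm.size]
    have h1 : Sq F M [] (allof n Q ∅) (4 + 5) := by
      refine Sq.ANDI hG (fun x hx => ?_) ?_
      · simp at hx
      · have : (AND (((List.range n).filter fun y => y ∈ (∅ : Finset ℕ)).map Q)).size
            = (allof n Q ∅).size := rfl
        rw [this, e0]; omega
    have h2 : Sq F M [] (OR ((subs 0 n).map fun N => allof n Q N)) 13 :=
      (Sq.ORI hG (f := fun N => allof n Q N) h1 h0 (by rw [e0]; omega)).up hG (by omega)
    exact (Sq.orL hG h2 (by rw [e0]; omega)).up hG (by omega)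
  | succ w ih =>
    intro hM
    have hmono := Bd_mono w n s
    have IH := ih (by omega)
    have hX := X_size hQ w
    have hZ := Z_size hQ w
    have hX' := X_size hQ (w + 1)
    have hZ' := Z_size hQ (w + 1)
    have hsB := s_le_Bd (w + 1) n s
    have hE := E_le_Bd (w + 1) n s
    have hal : ∀ N : Finset ℕ, (allof n Q N).size ≤ Bd (w + 1) n s :=
      fun N => (allof_size hQ N).trans hE
    have hex : ∀ N : Finset ℕ, (exactly n Q N).size ≤ Bd (w + 1) n s :=
      fun N => (exactly_size hQ N).trans hE
    have gX : (XX w n Q).size ≤ Bd w n s := hX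
    have gZ : (ZZ w n Q).size ≤ Bd w n s := hZ
    have gX' : (XX (w + 1) n Q).size ≤ Bd (w + 1) n s := hX'
    have gZ' : (ZZ (w + 1) n Q).size ≤ Bd (w + 1) n s := hZ'
    -- case `Z`
    have hb : Sq F M [ZZ w n Q] (or (XX (w + 1) n Q) (ZZ (w + 1) n Q)) 60 := by
      have h1 : Sq F M [ZZ w n Q] (ZZ (w + 1) n Q) 50 := by
        refine (Sq.ORE hG (l := subsLt w n) (f := fun N => exactly n Q N) (a := 4) (b := 8)
          (Sq.hyp hG (by simp) ?_) (fun N hN => ?_) ?_).up hG (by omega)
        · simp only [AND, Fm.size]; omega
        · have hN' : N ∈ subsLt (w + 1) n := by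
            rw [mem_subsLt] at hN ⊢
            exact ⟨hN.1, by omega⟩
          have := hex N
          refine (Sq.ORI hG (f := fun N => exactly n Q N) (x := N)
            (Sq.hyp hG (by simp) ?_) hN' ?_).up hG (by omega)
          · simp only [AND, Fm.size]; omega
          · simp only [AND, Fm.size]; omega
        · simp only [AND, Fm.size]; omega
      exact (Sq.orR hG h1 (by simp only [AND, Fm.size]; omega)).up hG (by omega)
    -- case `X`
    have ha : Sq F M [XX w n Q] (or (XX (w + 1) n Q) (ZZ (w + 1) n Q)) 150 := by
      refine (Sq.ORE hG (l := subs w n) (f := fun N => allof n Q N) (a := 4) (b := 138)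
          (Sq.hyp hG (by simp) ?_) (fun N hN => ?_) ?_).up hG (by omega)
      · simp only [AND, Fm.size]; omega
      · have hN1 := hal N
        have hN2 := hex N
        rw [mem_subs] at hN
        refine (Sq.cases hG (X := (XX (w + 1) n Q)) (a := 8) (b := 130) ?_ ?_).up hG (by omega)
        · exact (Sq.orL hG (Sq.hyp hG (by simp) (by simp only [AND, Fm.size]; omega))
            (by simp only [AND, Fm.size]; omega)).up hG (by omega)
        · have h3 : Sq F M [neg (XX (w + 1) n Q), allof n Q N, XX w n Q] (exactly n Q N) 100 := by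
            unfold exactly
            refine (Sq.ANDI hG (e := 90) (fun y hy => ?_) ?_).up hG (by omega)
            · have hyn : y < n := List.mem_range.1 hy
              have hQy := hQ y hyn
              by_cases hyN : y ∈ N
              · rw [if_pos hyN]
                have h4 : Sq F M [neg (XX (w + 1) n Q), allof n Q N, XX w n Q] (allof n Q N) 4 :=
                  Sq.hyp hG (by simp) (by simp only [AND, Fm.size]; omega)
                refine (Sq.ANDE hG (l := (List.range n).filter fun y => y ∈ N) (f := Q) h4
                  (x := y) ?_).up hG (by omega)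
                simp [hyn, hyN]
              · rw [if_neg hyN]
                have hI := hal (insert y N)
                refine (Sq.negI hG (e := 80) ?_).up hG (by omega)
                have h5 : Sq F M [Q y, neg (XX (w + 1) n Q), allof n Q N, XX w n Q] (allof n Q (insert y N)) 40 := by
                  have hsz : (AND (((List.range n).filter fun y' => y' ∈ insert y N).map Q)).size
                      = (allof n Q (insert y N)).size := rfl
                  refine (Sq.ANDI hG (e := 30) (fun z hz => ?_) ?_).up hG (by omega)
                  · simp only [List.mem_filter, List.mem_range, Finset.mem_insert,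
                      decide_eq_true_eq] at hz
                    obtain ⟨hzn, hz⟩ := hz
                    by_cases hzy : z = y
                    · subst hzy
                      exact (Sq.hyp hG (by simp) (by simp only [AND, Fm.size]; omega)).up hG
                        (by omega)
                    · have hzN : z ∈ N := by tauto
                      have h4 : Sq F M [Q y, neg (XX (w + 1) n Q), allof n Q N, XX w n Q] (allof n Q N) 4 :=
                        Sq.hyp hG (by simp) (by simp only [AND, Fm.size]; omega)
                      refine (Sq.ANDE hG (l := (List.range n).filter fun y => y ∈ N) (f := Q) h4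
                        (x := z) ?_).up hG (by omega)
                      simp [hzn, hzN]
                  · rw [hsz]; simp only [AND, Fm.size]; omega
                have h6 : Sq F M [Q y, neg (XX (w + 1) n Q), allof n Q N, XX w n Q] (neg (XX (w + 1) n Q)) 4 :=
                  Sq.hyp hG (by simp) (by simp only [AND, Fm.size]; omega)
                have hmem : insert y N ∈ subs (w + 1) n := by
                  rw [mem_subs]
                  refine ⟨?_, ?_⟩
                  · intro z hz
                    rcases Finset.mem_insert.1 hz with rfl | hz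
                    · exact Finset.mem_range.2 hyn
                    · exact hN.1 hz
                  · rw [Finset.card_insert_of_notMem hyN, hN.2]
                have h7 : Sq F M [Q y, neg (XX (w + 1) n Q), allof n Q N, XX w n Q] (neg (allof n Q (insert y N))) 8 :=
                  (Sq.NORE hG (l := subs (w + 1) n) (f := fun N => allof n Q N) h6 hmem).up hG
                    (by omega)
                exact (Sq.contraF hG h5 h7 (by simp only [AND, Fm.size]; omega)).up hG (by omega)
            · have hsz : (AND ((List.range n).map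
                  fun y => if y ∈ N then Q y else neg (Q y))).size = (exactly n Q N).size := rfl
              rw [hsz]; simp only [AND, Fm.size]; omega
          have h8 : Sq F M [neg (XX (w + 1) n Q), allof n Q N, XX w n Q] (ZZ (w + 1) n Q) 104 := by
            have hN' : N ∈ subsLt (w + 1) n := by
              rw [mem_subsLt]
              exact ⟨hN.1, by omega⟩
            exact (Sq.ORI hG (f := fun N => exactly n Q N) h3 hN'
              (by simp only [AND, Fm.size]; omega)).up hG (by omega)
          exact (Sq.orR hG h8 (by simp only [AND, Fm.size]; omega)).up hG (by omega)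
      · simp only [AND, Fm.size]; omega
    exact (Sq.orE hG IH ha hb).up hG (by omega)

/-- **Small sets lemma.** -/
theorem t_ss (F : List Rule) (w : ℕ) : T_SS F w := by
  refine ⟨200 * (w + 1), 2 * w + 8, fun n M Q s hG hQ hM => ?_⟩
  refine main hG hQ w (le_trans ?_ hM)
  unfold Bd
  have h1 : 64 ≤ (n + 2) ^ 6 := by
    calc 64 = 2 ^ 6 := by norm_num
      _ ≤ (n + 2) ^ 6 := Nat.pow_le_pow_left (by omega) 6
  have h2 : (n + 2) ^ (2 * w + 8) * (s + 1) =
      (n + 2) ^ 6 * ((n + 2) ^ (2 * w) * ((n + 2) ^ 2 * (s + 1))) := by ring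
  rw [h2]
  calc 20 * (3 * ((n + 2) ^ (2 * w) * ((n + 2) ^ 2 * (s + 1)))) =
        60 * ((n + 2) ^ (2 * w) * ((n + 2) ^ 2 * (s + 1))) := by ring
    _ ≤ _ := Nat.mul_le_mul_right _ (by omega)

end Pool.Agent.Y497.KLSS
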